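import Mathlib
import Pool.Agent.Lib.MP_ba6833_co.Statement
import Pool.Agent.Lib.MP_ba6833_co.Main

/-!
# MP_ba6833_co, Q1: the number of colours which makes the Turán graph rainbow-extremal

For every `k ≥ 4`,
`r₀(k) = 1 + ⌊max {(C(k,2) - 1)^((k-1)/(k-2)), 3^((k-1)/3)}⌋`.
-/

namespace Pool.Agent.Results.MP_ba6833_co.RainbowThreshold

open Pool.Agent.Lib.MP_ba6833_co

/-- For every `k ≥ 4`, the least integer `R` such that for every `r ≥ R` the Turán graph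
`T_{k-1}(n)` is, for all sufficiently large `n`, the unique `n`-vertex graph with the maximum
number of `r`-edge-colourings without a rainbow `K_k`, is
`⌊max {(C(k,2) - 1)^((k-1)/(k-2)), 3^((k-1)/3)}⌋ + 1`. -/
theorem result (k : ℕ) (hk : 4 ≤ k) :
    IsLeast {R : ℕ | ∀ r, R ≤ r → ∃ n₀ : ℕ, ∀ n, n₀ ≤ n → TuranUnique r k n}
      (⌊max (((k.choose 2 : ℝ) - 1) ^ (((k : ℝ) - 1) / ((k : ℝ) - 2)))
        ((3 : ℝ) ^ (((k : ℝ) - 1) / 3))⌋₊ + 1) := by
  obtain ⟨a, rfl⟩ : ∃ a, k = a + 1 := ⟨k - 1, by omega⟩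
  have h := threshold a (by omega)
  have hK : 1 ≤ (a + 1).choose 2 := Nat.choose_pos (by omega)
  have e1 : (((a + 1).choose 2 - 1 : ℕ) : ℝ) = ((a + 1).choose 2 : ℝ) - 1 := by
    rw [Nat.cast_sub hK, Nat.cast_one]
  have e2 : ((a - 1 : ℕ) : ℝ) = ((a + 1 : ℕ) : ℝ) - 2 := by
    rw [Nat.cast_sub (by omega)]
    push_cast
    ring
  have e3 : (a : ℝ) = ((a + 1 : ℕ) : ℝ) - 1 := by
    push_cast
    ring
  have e4 : ((3 : ℕ) : ℝ) = 3 := by norm_num
  rw [e1, e2, e4, e3] at h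
  exact h

end Pool.Agent.Results.MP_ba6833_co.RainbowThreshold
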